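import Mathlib

set_option autoImplicit false

namespace Pool.Agent.Results.MP_725138_al.ExponentCounterexample

/-- An element `x` of a group `G` is inverse semi-rational in `G` if each generator of the cyclic
subgroup generated by `x` is conjugate in `G` to `x` or to `x⁻¹`. -/
def IsInverseSemiRational {G : Type*} [Group G] (x : G) : Prop :=
  ∀ y : G, Subgroup.zpowers y = Subgroup.zpowers x → IsConj x y ∨ IsConj x⁻¹ y

/-- A group is a cut group if all of its elements are inverse semi-rational. -/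
def IsCutGroup (G : Type*) [Group G] : Prop :=
  ∀ x : G, IsInverseSemiRational x

/-- `N` is the largest normal `p`-subgroup `O_p(G)` of `G`. -/
def IsLargestNormalPSubgroup (p : ℕ) {G : Type*} [Group G] (N : Subgroup G) : Prop :=
  N.Normal ∧ IsPGroup p N ∧ ∀ M : Subgroup G, M.Normal → IsPGroup p M → M ≤ N

/-- The group `F_p ^ F_p ⋊ (F_p^* × AGL_1(p))`; the quadruple `(a, s, m, n)` acts on functions
`b : F_p → F_p` by `b ↦ a + s • b (m⁻¹ (u - n))`. -/
@[ext] structure GG (p : ℕ) where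
  a : ZMod p → ZMod p
  s : (ZMod p)ˣ
  m : (ZMod p)ˣ
  n : ZMod p

namespace GG

variable {p : ℕ}

instance : Mul (GG p) :=
  ⟨fun x y => ⟨fun u => x.a u + x.s * y.a ((x.m⁻¹ : (ZMod p)ˣ) * (u - x.n)), x.s * y.s, x.m * y.m,
    x.m * y.n + x.n⟩⟩

instance : One (GG p) := ⟨⟨fun _ => 0, 1, 1, 0⟩⟩

instance : Inv (GG p) :=
  ⟨fun x => ⟨fun u => -((x.s⁻¹ : (ZMod p)ˣ) * x.a (x.m * u + x.n)), x.s⁻¹, x.m⁻¹,
    -((x.m⁻¹ : (ZMod p)ˣ) * x.n)⟩⟩

theorem mul_def (x y : GG p) : x * y =
  ⟨fun u => x.a u + x.s * y.a ((x.m⁻¹ : (ZMod p)ˣ) * (u - x.n)), x.s * y.s, x.m * y.m,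
    x.m * y.n + x.n⟩ := rfl

theorem one_def : (1 : GG p) = ⟨fun _ => 0, 1, 1, 0⟩ := rfl

theorem inv_def (x : GG p) : x⁻¹ =
  ⟨fun u => -((x.s⁻¹ : (ZMod p)ˣ) * x.a (x.m * u + x.n)), x.s⁻¹, x.m⁻¹,
    -((x.m⁻¹ : (ZMod p)ˣ) * x.n)⟩ := rfl

instance : Group (GG p) :=
  Group.ofLeftAxioms
    (by
      intro x y z
      simp only [mul_def]
      ext u
      · simp only [Units.val_mul, mul_inv]
        have h : (↑x.m⁻¹ * ↑y.m⁻¹ : ZMod p) * (u - (↑x.m * y.n + x.n))
            = ↑y.m⁻¹ * (↑x.m⁻¹ * (u - x.n) - y.n) := by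
          have h1 : (↑x.m⁻¹ : ZMod p) * ↑x.m = 1 := by simp
          linear_combination (-(↑y.m⁻¹ : ZMod p) * y.n) * h1
        rw [h]
        ring
      · simp [mul_assoc]
      · simp [mul_assoc]
      · simp only [Units.val_mul]
        ring)
    (by
      intro x
      simp only [mul_def, one_def]
      ext u <;> simp)
    (by
      intro x
      simp only [mul_def, one_def, inv_def]
      ext u
      · have h : (x.m : ZMod p) * (u + ↑x.m⁻¹ * x.n) = x.m * u + x.n := by
          have h1 : (↑x.m : ZMod p) * ↑x.m⁻¹ = 1 := by simp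
          linear_combination x.n * h1
        simp [h]
      · simp
      · simp
      · simp)

theorem fst_mul (x y : GG p) (u : ZMod p) :
    (x * y).a u = x.a u + x.s * y.a ((x.m⁻¹ : (ZMod p)ˣ) * (u - x.n)) := rfl

instance [NeZero p] : Finite (GG p) := by
  apply Finite.of_injective
    (fun x : GG p => ((x.a, x.s, x.m, x.n) : (ZMod p → ZMod p) × (ZMod p)ˣ × (ZMod p)ˣ × ZMod p))
  intro x y h
  simp only [Prod.mk.injEq] at h
  exact GG.ext h.1 h.2.1 h.2.2.1 h.2.2.2

/-- The projection to the scalars. -/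
def proj (p : ℕ) : GG p →* (ZMod p)ˣ × (ZMod p)ˣ where
  toFun x := (x.s, x.m)
  map_one' := rfl
  map_mul' _ _ := rfl

theorem mem_ker {x : GG p} : x ∈ (proj p).ker ↔ x.s = 1 ∧ x.m = 1 := by
  rw [MonoidHom.mem_ker]
  exact Prod.ext_iff

/-- The operator on functions attached to the coordinates `(s, m, n)`. -/
def theta (s m : (ZMod p)ˣ) (n : ZMod p) : Module.End (ZMod p) (ZMod p → ZMod p) where
  toFun b u := s * b ((m⁻¹ : (ZMod p)ˣ) * (u - n))
  map_add' b c := by ext u; simp [mul_add]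
  map_smul' c b := by ext u; simp; ring

theorem theta_apply (s m : (ZMod p)ˣ) (n : ZMod p) (b : ZMod p → ZMod p) (u : ZMod p) :
    theta s m n b u = s * b ((m⁻¹ : (ZMod p)ˣ) * (u - n)) := rfl

theorem mk_mul (a b : ZMod p → ZMod p) (s m t l : (ZMod p)ˣ) (n j : ZMod p) :
    (⟨a, s, m, n⟩ : GG p) * ⟨b, t, l, j⟩ = ⟨a + theta s m n b, s * t, m * l, m * j + n⟩ := rfl

theorem theta_mul (s m t l : (ZMod p)ˣ) (n j : ZMod p) :
    theta s m n * theta t l j = theta (s * t) (m * l) (m * j + n) := by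
  ext b u
  simp only [Module.End.mul_apply, theta_apply, Units.val_mul, mul_inv]
  have h : (↑m⁻¹ * ↑l⁻¹ : ZMod p) * (u - (↑m * j + n))
      = ↑l⁻¹ * (↑m⁻¹ * (u - n) - j) := by
    have h1 : (↑m⁻¹ : ZMod p) * ↑m = 1 := by simp
    linear_combination (-(↑l⁻¹ : ZMod p) * j) * h1
  rw [h]
  ring

theorem theta_one : theta (p := p) 1 1 0 = 1 := by
  ext b u
  simp [theta_apply]

theorem theta_pow (s m : (ZMod p)ˣ) (j : ℕ) : theta s m 0 ^ j = theta (s ^ j) (m ^ j) 0 := by
  induction j with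
  | zero => simp [theta_one]
  | succ j ih => rw [pow_succ, ih, theta_mul]; simp [pow_succ]

theorem theta_pow' (s : (ZMod p)ˣ) (n : ZMod p) (j : ℕ) :
    theta s 1 n ^ j = theta (s ^ j) 1 (j * n) := by
  induction j with
  | zero => simp [theta_one]
  | succ j ih =>
    rw [pow_succ, ih, theta_mul]
    have h : ((1 : (ZMod p)ˣ) : ZMod p) * n + j * n = ((j + 1 : ℕ) : ZMod p) * n := by
      push_cast; ring
    rw [h, pow_succ, mul_one]

theorem isConj_of {c x y : GG p} (h : c * x = y * c) : IsConj x y :=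
  isConj_iff.mpr ⟨c, by rw [h]; group⟩

/-- Conjugating by a function `b`. -/
theorem conj_fun (a b : ZMod p → ZMod p) (s m : (ZMod p)ˣ) (n : ZMod p) :
    IsConj (⟨a, s, m, n⟩ : GG p) ⟨a + b - theta s m n b, s, m, n⟩ := by
  apply isConj_of (c := ⟨b, 1, 1, 0⟩)
  rw [mk_mul, mk_mul, theta_one]
  ext u <;> simp
  ring

/-- Conjugating by a translation. -/
theorem conj_trans (a : ZMod p → ZMod p) (s m : (ZMod p)ˣ) (n c : ZMod p) :
    ∃ a' : ZMod p → ZMod p, IsConj (⟨a, s, m, n⟩ : GG p) ⟨a', s, m, n + (1 - m) * c⟩ := by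
  refine ⟨theta 1 1 c a, ?_⟩
  apply isConj_of (c := ⟨0, 1, 1, c⟩)
  rw [mk_mul, mk_mul, map_zero]
  ext u <;> simp
  ring

variable [hp : Fact p.Prime]

theorem pow_sub_one_eq (s : (ZMod p)ˣ) : s ^ (p - 1) = 1 := ZMod.units_pow_card_sub_one_eq_one p s

theorem unit_pow (s : (ZMod p)ˣ) {j : ℕ} (hj : j ≡ 1 [MOD (p - 1)]) : s ^ j = s := by
  have h := pow_sub_one_eq s
  have h2 : s ^ j = s ^ 1 := by
    rw [pow_eq_pow_iff_modEq]
    exact hj.of_dvd (orderOf_dvd_of_pow_eq_one h)
  rw [h2, pow_one]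

/-- The statement that `x` is conjugate to its powers with exponent prime to `p` and congruent to
one modulo `p - 1`. -/
def Good (x : GG p) : Prop :=
  ∀ j : ℕ, ¬ p ∣ j → j ≡ 1 [MOD (p - 1)] → IsConj x (x ^ j)

omit hp in
theorem Good.of_isConj {x y : GG p} (h : IsConj x y) (hy : Good y) : Good x := by
  intro j hj hj'
  have h1 := hy j hj hj'
  exact h.trans (h1.trans (h.pow j).symm)

theorem pow_fixed (a : ZMod p → ZMod p) (s m : (ZMod p)ˣ) (h : theta s m 0 a = a) (j : ℕ) :
    (⟨a, s, m, 0⟩ : GG p) ^ j = ⟨j • a, s ^ j, m ^ j, 0⟩ := by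
  induction j with
  | zero => ext <;> simp [one_def]
  | succ j ih =>
    rw [pow_succ', ih, mk_mul, map_nsmul, h]
    ext u
    · simp; ring
    · simp [pow_succ']
    · simp [pow_succ']
    · simp

theorem good_fixed (a : ZMod p → ZMod p) (s m : (ZMod p)ˣ) (h : theta s m 0 a = a) :
    Good (⟨a, s, m, 0⟩ : GG p) := by
  intro j hj hj'
  rw [pow_fixed a s m h, unit_pow s hj', unit_pow m hj']
  have hj0 : (j : ZMod p) ≠ 0 := by
    rw [Ne, ZMod.natCast_eq_zero_iff]; exact hj
  apply isConj_of (c := ⟨0, Units.mk0 (j : ZMod p) hj0, 1, 0⟩)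
  rw [mk_mul, mk_mul, map_zero]
  ext u
  · simp [theta_apply]
  · simp [mul_comm]
  · simp
  · simp

theorem good_fix (a : ZMod p → ZMod p) (s m : (ZMod p)ˣ) : Good (⟨a, s, m, 0⟩ : GG p) := by
  set θ : Module.End (ZMod p) (ZMod p → ZMod p) := theta s m 0 with hθ
  have hθ1 : θ ^ (p - 1) = 1 := by
    rw [hθ, theta_pow, pow_sub_one_eq, pow_sub_one_eq, theta_one]
  -- c is the projection of a to the fixed space
  set c : ZMod p → ZMod p := -((∑ i ∈ Finset.range (p - 1), θ ^ i) a) with hc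
  set b : ZMod p → ZMod p :=
    (∑ i ∈ Finset.range (p - 1), ∑ l ∈ Finset.range i, θ ^ l) a with hb
  have h1 : θ c = c := by
    have h2 : (∑ i ∈ Finset.range (p - 1), θ ^ i) * (θ - 1) = 0 := by
      rw [geom_sum_mul, hθ1, sub_self]
    have h3 : (θ - 1) * (∑ i ∈ Finset.range (p - 1), θ ^ i) = 0 := by
      rw [mul_geom_sum, hθ1, sub_self]
    have h4 : ((θ - 1) * (∑ i ∈ Finset.range (p - 1), θ ^ i)) a = 0 := by rw [h3]; rfl
    rw [Module.End.mul_apply, LinearMap.sub_apply, Module.End.one_apply] at h4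
    rw [hc, map_neg, sub_eq_zero.mp h4]
  have h5 : a + b - θ b = c := by
    have h6 : (θ - 1) * (∑ i ∈ Finset.range (p - 1), ∑ l ∈ Finset.range i, θ ^ l)
        = (∑ i ∈ Finset.range (p - 1), θ ^ i) + 1 := by
      rw [Finset.mul_sum]
      simp_rw [mul_geom_sum]
      rw [Finset.sum_sub_distrib]
      simp only [Finset.sum_const, Finset.card_range, nsmul_eq_mul, mul_one]
      have h7 : ((p - 1 : ℕ) : Module.End (ZMod p) (ZMod p → ZMod p)) = -1 := by
        rw [Nat.cast_sub hp.out.one_le]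
        have : ((p : ℕ) : Module.End (ZMod p) (ZMod p → ZMod p)) = 0 := by
          ext b u
          simp
        rw [this]; simp
      rw [h7]; abel
    have h8 : θ b - b = (∑ i ∈ Finset.range (p - 1), θ ^ i) a + a := by
      have := congrArg (fun f : Module.End (ZMod p) (ZMod p → ZMod p) => f a) h6
      simpa [Module.End.mul_apply, LinearMap.sub_apply, hb] using this
    have h9 : a + b - θ b = a - (θ b - b) := by abel
    rw [h9, h8, hc]; abel
  have h10 := conj_fun a b s m 0
  rw [← hθ, h5] at h10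
  exact Good.of_isConj h10 (good_fixed c s m h1)

theorem good_m_ne_one (a : ZMod p → ZMod p) (s m : (ZMod p)ˣ) (n : ZMod p) (hm : m ≠ 1) :
    Good (⟨a, s, m, n⟩ : GG p) := by
  have hm' : (m : ZMod p) - 1 ≠ 0 := by
    intro h
    apply hm
    ext
    rw [sub_eq_zero.mp h]; rfl
  obtain ⟨a', h⟩ := conj_trans a s m n (n / (m - 1))
  have h2 : n + (1 - m) * (n / (m - 1)) = 0 := by
    field_simp
    ring
  rw [h2] at h
  exact Good.of_isConj h (good_fix a' s m)

theorem pow_zero_fun (s : (ZMod p)ˣ) (n : ZMod p) (j : ℕ) :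
    (⟨0, s, 1, n⟩ : GG p) ^ j = ⟨0, s ^ j, 1, j * n⟩ := by
  induction j with
  | zero => ext <;> simp [one_def]
  | succ j ih =>
    rw [pow_succ', ih, mk_mul, map_zero]
    ext u
    · simp
    · simp [pow_succ']
    · simp
    · simp; ring

theorem good_s_ne_one (a : ZMod p → ZMod p) (s : (ZMod p)ˣ) (n : ZMod p) (hs : s ≠ 1) :
    Good (⟨a, s, 1, n⟩ : GG p) := by
  set θ : Module.End (ZMod p) (ZMod p → ZMod p) := theta s 1 n with hθ
  have hs' : (s : ZMod p) - 1 ≠ 0 := by
    intro h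
    apply hs
    ext
    rw [sub_eq_zero.mp h]; rfl
  have hsp : s ^ p = s := unit_pow s (by
    have : p = 1 + (p - 1) := by have := hp.out.one_le; omega
    conv_lhs => rw [this]
    simp [Nat.ModEq])
  have h1 : θ ^ p = (s : ZMod p) • (1 : Module.End (ZMod p) (ZMod p → ZMod p)) := by
    rw [hθ, theta_pow', hsp]
    ext b u
    simp [theta_apply]
  set b : ZMod p → ZMod p := ((s : ZMod p) - 1)⁻¹ • (∑ i ∈ Finset.range p, θ ^ i) a with hb
  have h2 : θ b - b = a := by
    have h3 : (θ - 1) * (∑ i ∈ Finset.range p, θ ^ i)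
        = ((s : ZMod p) - 1) • (1 : Module.End (ZMod p) (ZMod p → ZMod p)) := by
      rw [mul_geom_sum, h1]
      apply LinearMap.ext
      intro f
      funext u
      simp only [LinearMap.sub_apply, LinearMap.smul_apply, Module.End.one_apply, Pi.sub_apply,
        Pi.smul_apply, smul_eq_mul]
      ring
    have h4 := congrArg (fun f : Module.End (ZMod p) (ZMod p → ZMod p) => f a) h3
    simp only [Module.End.mul_apply, LinearMap.sub_apply, Module.End.one_apply,
      LinearMap.smul_apply] at h4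
    rw [hb, map_smul, ← smul_sub, h4, smul_smul, inv_mul_cancel₀ hs', one_smul]
  have h5 : a + b - θ b = 0 := by
    have h9 : a + b - θ b = a - (θ b - b) := by abel
    rw [h9, h2, sub_self]
  have h6 := conj_fun a b s 1 n
  rw [← hθ, h5] at h6
  apply Good.of_isConj h6
  intro j hj hj'
  rw [pow_zero_fun, unit_pow s hj']
  have hj0 : (j : ZMod p) ≠ 0 := by
    rw [Ne, ZMod.natCast_eq_zero_iff]; exact hj
  apply isConj_of (c := ⟨0, 1, Units.mk0 (j : ZMod p) hj0, 0⟩)
  rw [mk_mul, mk_mul, map_zero, map_zero]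
  ext u <;> simp

/-- The sum of the values of the function part. -/
theorem sum_shift (f : ZMod p → ZMod p) (m : (ZMod p)ˣ) (n : ZMod p) :
    ∑ u, f ((m⁻¹ : (ZMod p)ˣ) * (u - n)) = ∑ u, f u := by
  apply Fintype.sum_bijective (fun u : ZMod p => (m⁻¹ : (ZMod p)ˣ) * (u - n))
  · constructor
    · intro u v h
      have h1 : (m⁻¹ : (ZMod p)ˣ) * (u - n) = (m⁻¹ : (ZMod p)ˣ) * (v - n) := h
      have h2 := (Units.mul_right_inj (m⁻¹)).mp h1
      exact sub_left_injective h2
    · intro v
      refine ⟨m * v + n, ?_⟩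
      change (m⁻¹ : (ZMod p)ˣ) * (m * v + n - n) = v
      rw [add_sub_cancel_right, Units.inv_mul_cancel_left]
  · intro u; rfl

theorem pow_unip (a : ZMod p → ZMod p) (n : ZMod p) (j : ℕ) :
    ∃ a' : ZMod p → ZMod p, (⟨a, 1, 1, n⟩ : GG p) ^ j = ⟨a', 1, 1, j * n⟩ ∧
      ∑ u, a' u = j * ∑ u, a u := by
  induction j with
  | zero =>
    refine ⟨0, ?_, by simp⟩
    ext <;> simp [one_def]
  | succ j ih =>
    obtain ⟨a', h1, h2⟩ := ih
    refine ⟨a + theta 1 1 n a', ?_, ?_⟩
    · rw [pow_succ', h1, mk_mul]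
      ext u
      · rfl
      · simp
      · simp
      · simp; ring
    · simp only [Pi.add_apply, Finset.sum_add_distrib, theta_apply, Units.val_one, one_mul]
      rw [sum_shift, h2]
      push_cast
      ring

theorem exists_sub_shift (n : ZMod p) (hn : n ≠ 0) (c : ZMod p → ZMod p) (hc : ∑ u, c u = 0) :
    ∃ b : ZMod p → ZMod p, b - theta 1 1 n b = c := by
  let D : (ZMod p → ZMod p) →ₗ[ZMod p] (ZMod p → ZMod p) := 1 - theta 1 1 n
  let E : (ZMod p → ZMod p) →ₗ[ZMod p] ZMod p := ∑ u, LinearMap.proj u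
  have hE : ∀ f, E f = ∑ u, f u := by intro f; simp [E]
  have hDE : LinearMap.range D ≤ LinearMap.ker E := by
    rintro _ ⟨f, rfl⟩
    rw [LinearMap.mem_ker, hE]
    simp only [D, LinearMap.sub_apply, Module.End.one_apply, Pi.sub_apply,
      Finset.sum_sub_distrib, theta_apply, Units.val_one, one_mul]
    rw [sum_shift, sub_self]
  have hker : LinearMap.ker D ≤ Submodule.span (ZMod p) {(fun _ => 1 : ZMod p → ZMod p)} := by
    intro f hf
    rw [LinearMap.mem_ker] at hf
    have h1 : ∀ u, f u = f (u - n) := by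
      intro u
      have := congrFun hf u
      simp only [D, LinearMap.sub_apply, Module.End.one_apply, Pi.sub_apply, theta_apply,
        Units.val_one, one_mul, inv_one, Pi.zero_apply] at this
      exact sub_eq_zero.mp this
    have h2 : ∀ (j : ℕ) u, f u = f (u - j * n) := by
      intro j
      induction j with
      | zero => intro u; simp
      | succ j ih =>
        intro u
        rw [ih u, h1 (u - j * n)]
        congr 1
        push_cast
        ring
    rw [Submodule.mem_span_singleton]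
    refine ⟨f 0, ?_⟩
    funext u
    have h3 := h2 (ZMod.val (u / n)) u
    rw [ZMod.natCast_val, ZMod.cast_id', id, div_mul_cancel₀ _ hn, sub_self] at h3
    rw [h3]
    simp
  have h1 : Module.finrank (ZMod p) (LinearMap.ker D) ≤ 1 :=
    (Submodule.finrank_mono hker).trans (by
      have := finrank_span_le_card (R := ZMod p) ({(fun _ => 1 : ZMod p → ZMod p)} : Set (ZMod p → ZMod p))
      simpa using this)
  have h2 := LinearMap.finrank_range_add_finrank_ker D
  have h3 := LinearMap.finrank_range_add_finrank_ker E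
  have hsurj : Function.Surjective E := by
    intro y
    refine ⟨fun u => if u = 0 then y else 0, ?_⟩
    rw [hE]; simp
  have h4 : Module.finrank (ZMod p) (LinearMap.range E) = 1 := by
    rw [LinearMap.range_eq_top.mpr hsurj, finrank_top, Module.finrank_self]
  have h5 : LinearMap.range D = LinearMap.ker E := by
    apply Submodule.eq_of_le_of_finrank_le hDE
    omega
  have h6 : c ∈ LinearMap.range D := by
    rw [h5, LinearMap.mem_ker, hE]; exact hc
  obtain ⟨b, hb⟩ := h6
  exact ⟨b, hb⟩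

theorem good_unip (a : ZMod p → ZMod p) (n : ZMod p) (hn : n ≠ 0) :
    Good (⟨a, 1, 1, n⟩ : GG p) := by
  intro j hj _
  have hj0 : (j : ZMod p) ≠ 0 := by
    rw [Ne, ZMod.natCast_eq_zero_iff]; exact hj
  obtain ⟨a', h1, h2⟩ := pow_unip a n j
  rw [h1]
  -- conjugate by the scalars
  set J : (ZMod p)ˣ := Units.mk0 (j : ZMod p) hj0 with hJ
  have h3 : IsConj (⟨a, 1, 1, n⟩ : GG p) ⟨theta J J 0 a, 1, 1, j * n⟩ := by
    apply isConj_of (c := ⟨0, J, J, 0⟩)
    rw [mk_mul, mk_mul, map_zero]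
    ext u <;> simp [hJ]
  refine h3.trans ?_
  have h4 : ∑ u, (a' - theta J J 0 a) u = 0 := by
    simp only [Pi.sub_apply, Finset.sum_sub_distrib, theta_apply]
    rw [← Finset.mul_sum, sum_shift, h2, hJ]
    simp
  obtain ⟨b, hb⟩ := exists_sub_shift ((j : ZMod p) * n) (mul_ne_zero hj0 hn) _ h4
  have h5 := conj_fun (theta J J 0 a) b 1 1 ((j : ZMod p) * n)
  have h6 : theta J J 0 a + b - theta 1 1 ((j : ZMod p) * n) b = a' := by
    rw [add_sub_assoc, hb]; abel
  rw [h6] at h5
  exact h5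

theorem good (x : GG p) : Good x := by
  obtain ⟨a, s, m, n⟩ := x
  by_cases hm : m = 1
  · subst hm
    by_cases hs : s = 1
    · subst hs
      by_cases hn : n = 0
      · subst hn
        exact good_fix a 1 1
      · exact good_unip a n hn
    · exact good_s_ne_one a s n hs
  · exact good_m_ne_one a s m n hm

theorem unit_pow_p_pow (s : (ZMod p)ˣ) (k : ℕ) (h : s ^ p ^ k = 1) : s = 1 := by
  have h1 : s ^ p = s := unit_pow s (by
    have : p = 1 + (p - 1) := by have := hp.out.one_le; omega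
    conv_lhs => rw [this]
    simp [Nat.ModEq])
  have h2 : ∀ k : ℕ, s ^ p ^ k = s := by
    intro k
    induction k with
    | zero => simp
    | succ k ih => rw [pow_succ, pow_mul, ih, h1]
  rw [← h2 k, h]

theorem isPGroup_ker : IsPGroup p (proj p).ker := by
  rintro ⟨x, hx⟩
  refine ⟨2, ?_⟩
  obtain ⟨a, s, m, n⟩ := x
  rw [mem_ker] at hx
  obtain ⟨hs, hm⟩ := hx
  simp only at hs hm
  subst hs hm
  apply Subtype.ext
  change (⟨a, 1, 1, n⟩ : GG p) ^ p ^ 2 = 1
  obtain ⟨a', h1, -⟩ := pow_unip a n p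
  rw [sq, pow_mul, h1, CharP.cast_eq_zero, zero_mul,
    pow_fixed a' 1 1 (by rw [theta_one]; rfl)]
  ext u
  · simp [one_def]
  · simp [one_def]
  · simp [one_def]
  · rfl

theorem isLargest : IsLargestNormalPSubgroup p (proj p).ker := by
  refine ⟨inferInstance, isPGroup_ker, ?_⟩
  intro M _ hM x hx
  obtain ⟨k, hk⟩ := hM ⟨x, hx⟩
  have hk' : x ^ p ^ k = 1 := congrArg Subtype.val hk
  have h := congrArg (proj p) hk'
  rw [map_pow, map_one] at h
  have h1 : (proj p x).1 ^ p ^ k = 1 := congrArg Prod.fst h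
  have h2 : (proj p x).2 ^ p ^ k = 1 := congrArg Prod.snd h
  rw [MonoidHom.mem_ker]
  exact Prod.ext (unit_pow_p_pow _ k h1) (unit_pow_p_pow _ k h2)

theorem solvable : Group.IsSolvable (GG p) := by
  have : Group.IsNilpotent (proj p).ker := isPGroup_ker.isNilpotent
  exact Group.isSolvable_of_ker_le_range (proj p).ker.subtype (proj p) (by simp)

/-- An element of order `p ^ 2`. -/
def elt (p : ℕ) : GG p := ⟨fun u => if u = 0 then 1 else 0, 1, 1, 1⟩

theorem elt_pow (j : ℕ) : (elt p) ^ j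
    = ⟨fun u => ∑ i ∈ Finset.range j, if u = i then 1 else 0, 1, 1, j⟩ := by
  induction j with
  | zero => ext <;> simp [one_def]
  | succ j ih =>
    rw [pow_succ, ih, elt, mk_mul]
    ext u
    · change (∑ i ∈ Finset.range j, if u = i then (1 : ZMod p) else 0)
        + theta 1 1 (j : ZMod p) (fun u => if u = 0 then 1 else 0) u
        = ∑ i ∈ Finset.range (j + 1), if u = i then (1 : ZMod p) else 0
      rw [theta_apply, Finset.sum_range_succ]
      simp [sub_eq_zero]
    · simp
    · simp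
    · simp; ring

theorem orderOf_elt : orderOf (elt p) = p ^ 2 := by
  apply orderOf_eq_prime_pow (n := 1)
  · rw [pow_one, elt_pow]
    intro h
    have h1 := congrFun (congrArg GG.a h) 0
    change (∑ i ∈ Finset.range p, if (0 : ZMod p) = i then (1 : ZMod p) else 0) = 0 at h1
    rw [Finset.sum_eq_single 0] at h1
    · simp at h1
    · intro i hi hi0
      rw [if_neg]
      intro h2
      apply hi0
      have h3 := (ZMod.natCast_eq_zero_iff i p).mp h2.symm
      exact Nat.eq_zero_of_dvd_of_lt h3 (Finset.mem_range.mp hi)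
    · intro h2
      exfalso
      apply h2
      rw [Finset.mem_range]
      exact hp.out.pos
  · obtain ⟨a', h1, -⟩ := pow_unip (fun u : ZMod p => if u = 0 then 1 else 0) 1 p
    change (⟨_, 1, 1, 1⟩ : GG p) ^ p ^ 2 = 1
    rw [sq, pow_mul, h1, CharP.cast_eq_zero, zero_mul,
      pow_fixed a' 1 1 (by rw [theta_one]; rfl)]
    ext u
    · simp [one_def]
    · simp [one_def]
    · simp [one_def]
    · rfl

theorem isCut (h : p = 5 ∨ p = 7) : IsCutGroup (GG p) := by
  intro x y hxy
  have hy : y ∈ Subgroup.zpowers x := by rw [← hxy]; exact Subgroup.mem_zpowers y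
  have hfin : IsOfFinOrder x := isOfFinOrder_of_finite x
  obtain ⟨j, hj⟩ := (hfin.mem_powers_iff_mem_zpowers).mpr hy
  have hj : x ^ j = y := hj
  have hord : orderOf y = orderOf x := by
    rw [← Nat.card_zpowers, ← Nat.card_zpowers, hxy]
  have hcop : Nat.Coprime (orderOf x) j := by
    have h1 := orderOf_pow x (n := j)
    rw [hj, hord] at h1
    have hpos : 0 < orderOf x := orderOf_pos x
    have h2 : Nat.gcd (orderOf x) j * orderOf x = orderOf x := by
      calc Nat.gcd (orderOf x) j * orderOf x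
          = Nat.gcd (orderOf x) j * (orderOf x / Nat.gcd (orderOf x) j) := by rw [← h1]
        _ = orderOf x := Nat.mul_div_cancel' (Nat.gcd_dvd_left _ _)
    have h3 : Nat.gcd (orderOf x) j * orderOf x = 1 * orderOf x := by rw [h2, one_mul]
    exact Nat.eq_of_mul_eq_mul_right hpos h3
  -- lift to a multiple of the order
  set N := orderOf x * (p * (p - 1)) with hN
  have hNpos : 0 < N := by
    have h1 := orderOf_pos x
    have h2 := hp.out.pos
    have h3 : 0 < p - 1 := by have := hp.out.one_lt; omega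
    positivity
  have : NeZero N := ⟨hNpos.ne'⟩
  have hdvd : orderOf x ∣ N := Dvd.intro _ rfl
  obtain ⟨J, hJ⟩ := ZMod.unitsMap_surjective hdvd (ZMod.unitOfCoprime j hcop.symm)
  set j' := (J : ZMod N).val with hj'
  have hJ1 : Nat.Coprime j' N := ZMod.val_coe_unit_coprime J
  have hJ2 : x ^ j' = y := by
    rw [← hj, pow_eq_pow_iff_modEq, ← ZMod.natCast_eq_natCast_iff]
    have h1 := congrArg Units.val hJ
    rw [ZMod.coe_unitOfCoprime, ZMod.unitsMap_def, Units.coe_map] at h1
    rw [← h1, hj']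
    simp
  have hJ3 : ¬ p ∣ j' := by
    intro h1
    have h2 : p ∣ N := by rw [hN]; exact Dvd.dvd.mul_left (Dvd.intro _ rfl) _
    have h3 := Nat.dvd_gcd h1 h2
    rw [hJ1] at h3
    exact hp.out.one_lt.ne' (Nat.dvd_one.mp h3)
  have hJ4 : Nat.Coprime j' (p - 1) := by
    apply Nat.Coprime.coprime_dvd_right _ hJ1
    rw [hN]
    exact Dvd.dvd.mul_left (Dvd.intro_left _ rfl) _
  have hodd : j' % 2 = 1 := by
    rw [← Nat.odd_iff, ← Nat.coprime_two_right]
    apply Nat.Coprime.coprime_dvd_right _ hJ4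
    rcases h with h | h <;> rw [h] <;> norm_num
  have hJ5 : j' % (p - 1) = 1 ∨ j' % (p - 1) = p - 2 := by
    rcases h with h | h
    · rw [h]
      omega
    · have h2 : ¬ 3 ∣ j' := by
        intro h3
        have h4 : Nat.Coprime j' 3 := by
          apply Nat.Coprime.coprime_dvd_right _ hJ4
          rw [h]; norm_num
        have h5 := Nat.dvd_gcd h3 (dvd_refl 3)
        rw [h4] at h5
        omega
      rw [h]
      omega
  rcases hJ5 with h5 | h5
  · left
    rw [← hJ2]
    apply good x j' hJ3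
    rw [Nat.ModEq, h5]
    rcases h with h | h <;> rw [h]
  · right
    -- use the exponent `j' * (orderOf x * (p - 1) * p - 1)`
    have h6 : x ^ (j' * (N - 1)) = y⁻¹ := by
      rw [pow_mul, hJ2, eq_inv_iff_mul_eq_one, ← pow_succ, Nat.sub_add_cancel hNpos, hN,
        pow_mul, ← hord, pow_orderOf_eq_one, one_pow]
    have hN1 : N % (p - 1) = 0 := by
      apply Nat.mod_eq_zero_of_dvd
      rw [hN]
      exact Dvd.dvd.mul_left (Dvd.intro_left _ rfl) _
    have hNp : N % p = 0 := by
      apply Nat.mod_eq_zero_of_dvd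
      rw [hN]
      exact Dvd.dvd.mul_left (Dvd.intro _ rfl) _
    have h7 := good x (j' * (N - 1)) (by
      intro h8
      rcases (Nat.Prime.dvd_mul hp.out).mp h8 with h9 | h9
      · exact hJ3 h9
      · have h10 : p ∣ N := Nat.dvd_of_mod_eq_zero hNp
        have h11 := (Nat.dvd_sub h10 h9)
        have h12 : N - (N - 1) = 1 := by omega
        rw [h12] at h11
        exact hp.out.one_lt.ne' (Nat.dvd_one.mp h11)) (by
      rw [Nat.ModEq]
      rcases h with h | h
      · rw [h] at h5 hN1 ⊢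
        have h13 : (N - 1) % 4 = 3 := by omega
        have h14 : j' % 4 = 3 := h5
        rw [Nat.mul_mod, show (5 - 1 : ℕ) = 4 from rfl, h13, h14]
      · rw [h] at h5 hN1 ⊢
        have h13 : (N - 1) % 6 = 5 := by omega
        have h14 : j' % 6 = 5 := h5
        rw [Nat.mul_mod, show (7 - 1 : ℕ) = 6 from rfl, h13, h14])
    rw [h6] at h7
    have h8 := isConj_iff.mp h7
    obtain ⟨c, hc⟩ := h8
    exact isConj_iff.mpr ⟨c, by rw [← conj_inv, hc, inv_inv]⟩

end GG

/-- Both for `p = 5` and for `p = 7` there is a finite solvable cut group `G` such that `O_p(G)`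
contains an element of order `p ^ 2`. -/
theorem result : ∀ p : ℕ, p = 5 ∨ p = 7 →
    ∃ (G : Type) (_ : Group G) (_ : Finite G), Group.IsSolvable G ∧ IsCutGroup G ∧
      ∃ N : Subgroup G, IsLargestNormalPSubgroup p N ∧ ∃ x ∈ N, orderOf x = p ^ 2 := by
  intro p h
  have : Fact p.Prime := ⟨by rcases h with h | h <;> subst h <;> norm_num⟩
  exact ⟨GG p, inferInstance, inferInstance, GG.solvable, GG.isCut h, (GG.proj p).ker,
    GG.isLargest, GG.elt p, GG.mem_ker.mpr ⟨rfl, rfl⟩, GG.orderOf_elt⟩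

end Pool.Agent.Results.MP_725138_al.ExponentCounterexample
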